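import Mathlib

/-!
# The 2-descent for `y² = x (x - p²) (x + p r)`: the arithmetic
-/

set_option autoImplicit false

namespace Pool.Agent.X257.LG

/-- the primes are `3` mod `8` and in progression -/
structure Trip (p q r : ℕ) : Prop where
  hp : p.Prime
  hq : q.Prime
  hr : r.Prime
  p8 : p % 8 = 3
  q8 : q % 8 = 3
  r8 : r % 8 = 3
  sum : p + r = 2 * q
  ne : p ≠ q

lemma Trip.pr {p q r : ℕ} (h : Trip p q r) : p ≠ r := by
  have := h.sum
  have := h.ne
  omega

lemma Trip.qr {p q r : ℕ} (h : Trip p q r) : q ≠ r := by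
  have := h.sum
  have := h.ne
  omega

lemma leg_neg {p : ℕ} [Fact p.Prime] (h : p % 8 = 3) : legendreSym p (-1) = -1 := by
  rw [legendreSym.at_neg_one (by omega), ZMod.χ₄_nat_three_mod_four (by omega)]

lemma leg_two {p : ℕ} [Fact p.Prime] (h : p % 8 = 3) : legendreSym p 2 = -1 := by
  rw [legendreSym.at_two (by omega), ZMod.χ₈_nat_eq_if_mod_eight]
  simp [h]
  omega

lemma leg_sq {p : ℕ} [Fact p.Prime] {a b c : ℤ} (hb : ¬ (p : ℤ) ∣ b) (hc : ¬ (p : ℤ) ∣ c)
    (h : (p : ℤ) ∣ a * b ^ 2 - c ^ 2) : legendreSym p a = 1 := by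
  have hb' : ((b : ℤ) : ZMod p) ≠ 0 := by rwa [Ne, ZMod.intCast_zmod_eq_zero_iff_dvd]
  have hc' : ((c : ℤ) : ZMod p) ≠ 0 := by rwa [Ne, ZMod.intCast_zmod_eq_zero_iff_dvd]
  have h' : ((a : ℤ) : ZMod p) * (b : ZMod p) ^ 2 = (c : ZMod p) ^ 2 := by
    have := (ZMod.intCast_zmod_eq_zero_iff_dvd _ p).2 h
    push_cast at this
    exact sub_eq_zero.1 this
  have ha' : ((a : ℤ) : ZMod p) ≠ 0 := by
    intro h0
    rw [h0, zero_mul] at h'
    exact hc' (pow_eq_zero_iff two_ne_zero |>.1 h'.symm)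
  rw [legendreSym.eq_one_iff p ha']
  refine ⟨(c : ZMod p) / b, ?_⟩
  field_simp
  linear_combination h'

section

variable {p q r : ℕ} [Fact p.Prime] [Fact q.Prime] [Fact r.Prime]

lemma dv {a b : ℕ} (ha : a.Prime) (hb : b.Prime) (hab : a ≠ b) : ¬ (a : ℤ) ∣ (b : ℤ) := by
  intro h
  exact hab ((Nat.prime_dvd_prime_iff_eq ha hb).1 (by exact_mod_cast h))

/-- `(q/p) = - (r/p)` -/
lemma sym1 (h : Trip p q r) : legendreSym p q = - legendreSym p r := by
  have h1 : legendreSym p (2 * q) = legendreSym p r := by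
    have : ((2 * q : ℤ) : ZMod p) = ((r : ℤ) : ZMod p) := by
      have := congrArg (fun n : ℕ => (n : ZMod p)) h.sum
      push_cast at this ⊢
      rw [← this, ZMod.natCast_self, zero_add]
    rw [legendreSym, legendreSym, this]
  rw [legendreSym.mul, leg_two h.p8] at h1
  linarith

/-- `(r/q) = - (p/q)` -/
lemma sym2 (h : Trip p q r) : legendreSym q r = - legendreSym q p := by
  have h1 : legendreSym q r = legendreSym q (-1 * p) := by
    have : ((r : ℤ) : ZMod q) = ((-1 * p : ℤ) : ZMod q) := by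
      have := congrArg (fun n : ℕ => (n : ZMod q)) h.sum
      push_cast at this ⊢
      rw [ZMod.natCast_self, mul_zero] at this
      linear_combination this
    rw [legendreSym, legendreSym, this]
  rw [h1, legendreSym.mul, leg_neg h.q8]
  ring

/-- `(p/q) = - (q/p)` -/
lemma sym3 (h : Trip p q r) : legendreSym q p = - legendreSym p q :=
  legendreSym.quadratic_reciprocity_three_mod_four (by have := h.p8; omega) (by have := h.q8; omega)

/-- `(q/r) = - (r/q)` -/
lemma sym4 (h : Trip p q r) : legendreSym r q = - legendreSym q r :=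
  legendreSym.quadratic_reciprocity_three_mod_four (by have := h.q8; omega) (by have := h.r8; omega)

end

/-- squarefree parts -/
lemma sqf (A : ℤ) (hA : A ≠ 0) : ∃ (s : ℤ) (d : ℕ) (u : ℤ), (s = 1 ∨ s = -1) ∧ Squarefree d ∧ u ≠ 0 ∧
    A = s * d * u ^ 2 ∧ (0 < A ↔ s = 1) := by
  obtain ⟨b, a, hab, hb⟩ := Nat.sq_mul_squarefree A.natAbs
  have ha : a ≠ 0 := by
    rintro rfl
    apply hA
    rw [← Int.natAbs_eq_zero, ← hab]
    ring
  have hb0 : b ≠ 0 := hb.ne_zero
  have hab' : ((a : ℤ)) ^ 2 * b = |A| := by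
    rw [Int.abs_eq_natAbs, ← hab]
    push_cast
    ring
  rcases lt_or_gt_of_ne hA with h | h
  · refine ⟨-1, b, a, Or.inr rfl, hb, by exact_mod_cast ha, ?_, ?_⟩
    · rw [abs_of_neg h] at hab'
      push_cast
      linear_combination hab'
    · constructor
      · intro h1; omega
      · intro h1; omega
  · refine ⟨1, b, a, Or.inl rfl, hb, by exact_mod_cast ha, ?_, ?_⟩
    · rw [abs_of_pos h] at hab'
      push_cast
      linear_combination -hab'
    · simp [h]

lemma sq_dvd {s : ℤ} {d : ℕ} {u R n : ℤ} (hu : u ≠ 0) (h : s * d * u ^ 2 * R = n ^ 2) :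
    ∃ k : ℤ, s * d * R = k ^ 2 ∧ n = u * k := by
  have h1 : u ^ 2 ∣ n ^ 2 := ⟨s * d * R, by rw [← h]; ring⟩
  obtain ⟨k, hk⟩ := (Int.pow_dvd_pow_iff two_ne_zero).1 h1
  refine ⟨k, ?_, hk⟩
  have h2 : u ^ 2 * (s * d * R) = u ^ 2 * k ^ 2 := by
    rw [← mul_pow, ← hk, ← h]; ring
  exact mul_left_cancel₀ (pow_ne_zero 2 hu) h2

/-- a prime factor of the squarefree part divides the other factors -/
lemma pf_dvd {s : ℤ} (hs : s = 1 ∨ s = -1) {d : ℕ} (hd : Squarefree d) {R k : ℤ}
    (h : s * d * R = k ^ 2) {l : ℕ} (hl : l.Prime) (hld : l ∣ d) : (l : ℤ) ∣ R := by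
  have hlp : Prime (l : ℤ) := Nat.prime_iff_prime_int.1 hl
  obtain ⟨d', hd'⟩ := hld
  have h1 : (l : ℤ) ∣ k ^ 2 := ⟨s * d' * R, by rw [← h, hd']; push_cast; ring⟩
  obtain ⟨k', hk'⟩ := hlp.dvd_of_dvd_pow h1
  have h2 : (l : ℤ) * (s * d' * R) = l * (l * k' ^ 2) := by
    rw [hd', hk'] at h
    push_cast at h
    linear_combination h
  have h3 := mul_left_cancel₀ (by exact_mod_cast hl.ne_zero : (l : ℤ) ≠ 0) h2
  have h4 : (l : ℤ) ∣ s * d' * R := ⟨k' ^ 2, h3⟩
  rcases hlp.dvd_or_dvd h4 with h5 | h5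
  · exfalso
    have h6 : (l : ℤ) ∣ d' := by
      rcases hs with rfl | rfl
      · simpa using h5
      · simpa using h5
    have h7 : l ∣ d' := by exact_mod_cast h6
    obtain ⟨d'', hd''⟩ := h7
    have := hd l ⟨d'', by rw [hd', hd'']; ring⟩
    exact hl.one_lt.ne' (Nat.isUnit_iff.1 this)
  · exact h5

lemma sqf_dvd {d : ℕ} (hd : Squarefree d) (S : Finset ℕ) (h : ∀ l : ℕ, l.Prime → l ∣ d → l ∈ S) :
    d ∣ ∏ l ∈ S, l := by
  rw [← Nat.prod_primeFactors_of_squarefree hd]
  apply Finset.prod_dvd_prod_of_subset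
  intro l hl
  rw [Nat.mem_primeFactors] at hl
  exact h l hl.1 hl.2.1

/-- **The descent.** -/
theorem core {p q r : ℕ} (h : Trip p q r) {M e n : ℤ} (hc : IsCoprime M e)
    (he : e ≠ 0) (hn : n ≠ 0) (hpM : ¬ (p : ℤ) ∣ M)
    (hE : M * ((M - p ^ 2 * e ^ 2) * (M + p * r * e ^ 2)) = n ^ 2) :
    ∃ u v : ℤ, u ≠ 0 ∧ v ≠ 0 ∧ M = u ^ 2 ∧ M - p ^ 2 * e ^ 2 = v ^ 2 := by
  have : Fact p.Prime := ⟨h.hp⟩
  have : Fact q.Prime := ⟨h.hq⟩
  have : Fact r.Prime := ⟨h.hr⟩
  have hpP : Prime (p : ℤ) := Nat.prime_iff_prime_int.1 h.hp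
  have hqP : Prime (q : ℤ) := Nat.prime_iff_prime_int.1 h.hq
  have hrP : Prime (r : ℤ) := Nat.prime_iff_prime_int.1 h.hr
  have hsum : (p : ℤ) + r = 2 * q := by exact_mod_cast h.sum
  obtain ⟨B, hB⟩ : ∃ B, B = M - p ^ 2 * e ^ 2 := ⟨_, rfl⟩
  obtain ⟨C, hC⟩ : ∃ C, C = M + p * r * e ^ 2 := ⟨_, rfl⟩
  rw [← hB, ← hC] at hE
  rw [← hB]
  have hn2 : 0 < n ^ 2 := by positivity
  have hM0 : M ≠ 0 := by
    rintro rfl
    rw [zero_mul] at hE
    omega
  have hB0 : B ≠ 0 := by
    rintro rfl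
    rw [zero_mul, mul_zero] at hE
    omega
  have hC0 : C ≠ 0 := by
    rintro rfl
    rw [mul_zero, mul_zero] at hE
    omega
  have hp0 : (0 : ℤ) < p := by exact_mod_cast h.hp.pos
  have hr0 : (0 : ℤ) < r := by exact_mod_cast h.hr.pos
  have he2 : 0 < e ^ 2 := by positivity
  have hMC : M < C := by
    have : 0 < p * r * e ^ 2 := by positivity
    linarith
  have hBM : B < M := by
    have : 0 < (p : ℤ) ^ 2 * e ^ 2 := by positivity
    linarith
  have hCpos : 0 < C := by
    by_contra hcon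
    have h1 : C < 0 := lt_of_le_of_ne (not_lt.1 hcon) hC0
    have h2 : 0 < B * C := mul_pos_of_neg_of_neg (by linarith) h1
    have h3 : M * (B * C) < 0 := mul_neg_of_neg_of_pos (by linarith) h2
    linarith
  have hnd : ∀ l : ℤ, Prime l → l ∣ M → ¬ l ∣ e := by
    intro l hl h1 h2
    exact hl.not_isUnit (hc.isUnit_of_dvd' h1 h2)
  obtain ⟨s, d, u, hs, hd, hu, hM, hs1⟩ := sqf M hM0
  obtain ⟨s', d', v, hs', hd', hv, hB', hs1'⟩ := sqf B hB0
  obtain ⟨k, hk, hnk⟩ := sq_dvd (R := B * C) (n := n) hu (by rw [← hM]; exact hE)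
  obtain ⟨k', hk', hnk'⟩ := sq_dvd (R := M * C) (n := n) hv (by rw [← hB']; linear_combination hE)
  have hd1 : d ∣ r := by
    have := sqf_dvd hd {r} (by
      intro l hl hld
      have hlp : Prime (l : ℤ) := Nat.prime_iff_prime_int.1 hl
      have hlM : (l : ℤ) ∣ M := by
        rw [hM]
        exact Dvd.dvd.mul_right (Dvd.dvd.mul_left (by exact_mod_cast hld) _) _
      rw [Finset.mem_singleton]
      have hlp' : l ≠ p := by
        rintro rfl
        exact hpM hlM
      have hle := hnd l hlp hlM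
      rcases hlp.dvd_or_dvd (pf_dvd hs hd hk hl hld) with h1 | h1
      · exfalso
        have h2 : (l : ℤ) ∣ p ^ 2 * e ^ 2 := by
          have : (p : ℤ) ^ 2 * e ^ 2 = M - B := by rw [hB]; ring
          rw [this]
          exact dvd_sub hlM h1
        rcases hlp.dvd_or_dvd h2 with h3 | h3
        · exact dv hl h.hp hlp' (hlp.dvd_of_dvd_pow h3)
        · exact hle (hlp.dvd_of_dvd_pow h3)
      · have h2 : (l : ℤ) ∣ p * r * e ^ 2 := by
          have : (p : ℤ) * r * e ^ 2 = C - M := by rw [hC]; ring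
          rw [this]
          exact dvd_sub h1 hlM
        rcases hlp.dvd_or_dvd h2 with h3 | h3
        · rcases hlp.dvd_or_dvd h3 with h4 | h4
          · exact absurd h4 (dv hl h.hp hlp')
          · by_contra h5
            exact dv hl h.hr h5 h4
        · exact absurd (hlp.dvd_of_dvd_pow h3) hle)
    simpa using this
  have hpB : ¬ (p : ℤ) ∣ B := by
    intro h1
    apply hpM
    have : M = B + p * (p * e ^ 2) := by rw [hB]; ring
    rw [this]
    exact dvd_add h1 (Dvd.intro _ rfl)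
  have hd2 : d' ∣ 2 * q := by
    have := sqf_dvd hd' {2, q} (by
      intro l hl hld
      have hlp : Prime (l : ℤ) := Nat.prime_iff_prime_int.1 hl
      have hlB : (l : ℤ) ∣ B := by
        rw [hB']
        exact Dvd.dvd.mul_right (Dvd.dvd.mul_left (by exact_mod_cast hld) _) _
      rw [Finset.mem_insert, Finset.mem_singleton]
      have hlp' : l ≠ p := by
        rintro rfl
        exact hpB hlB
      have hle : ¬ (l : ℤ) ∣ e := by
        intro h1
        have h2 : (l : ℤ) ∣ M := by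
          have : M = B + e * (p ^ 2 * e) := by rw [hB]; ring
          rw [this]
          exact dvd_add hlB (Dvd.dvd.mul_right h1 _)
        exact hnd l hlp h2 h1
      rcases hlp.dvd_or_dvd (pf_dvd hs' hd' hk' hl hld) with h1 | h1
      · exfalso
        have h2 : (l : ℤ) ∣ p ^ 2 * e ^ 2 := by
          have : (p : ℤ) ^ 2 * e ^ 2 = M - B := by rw [hB]; ring
          rw [this]
          exact dvd_sub h1 hlB
        rcases hlp.dvd_or_dvd h2 with h3 | h3
        · exact dv hl h.hp hlp' (hlp.dvd_of_dvd_pow h3)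
        · exact hle (hlp.dvd_of_dvd_pow h3)
      · have h2 : (l : ℤ) ∣ p * (2 * q) * e ^ 2 := by
          have : (p : ℤ) * (2 * q) * e ^ 2 = C - B := by rw [hC, hB, ← hsum]; ring
          rw [this]
          exact dvd_sub h1 hlB
        rcases hlp.dvd_or_dvd h2 with h3 | h3
        · rcases hlp.dvd_or_dvd h3 with h4 | h4
          · exact absurd h4 (dv hl h.hp hlp')
          · rcases hlp.dvd_or_dvd h4 with h5 | h5
            · left
              exact (Nat.prime_dvd_prime_iff_eq hl Nat.prime_two).1 (by exact_mod_cast h5)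
            · right
              exact (Nat.prime_dvd_prime_iff_eq hl h.hq).1 (by exact_mod_cast h5)
        · exact absurd (hlp.dvd_of_dvd_pow h3) hle)
    have hq2 : (2 : ℕ) ≠ q := by
      have := h.q8
      omega
    rwa [Finset.prod_pair hq2] at this
  have hpn : ¬ (p : ℤ) ∣ n := by
    intro h1
    have h2 : (p : ℤ) ∣ M * (B * C) := by rw [hE]; exact Dvd.dvd.pow h1 two_ne_zero
    rcases hpP.dvd_or_dvd h2 with h3 | h3
    · exact hpM h3
    · rcases hpP.dvd_or_dvd h3 with h4 | h4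
      · exact hpB h4
      · apply hpM
        have : M = C - p * (r * e ^ 2) := by rw [hC]; ring
        rw [this]
        exact dvd_sub h4 (Dvd.intro _ rfl)
  have hpu : ¬ (p : ℤ) ∣ u := by
    intro h1
    apply hpM
    rw [hM]
    exact Dvd.dvd.mul_left (Dvd.dvd.pow h1 two_ne_zero) _
  have hpv : ¬ (p : ℤ) ∣ v := by
    intro h1
    apply hpB
    rw [hB']
    exact Dvd.dvd.mul_left (Dvd.dvd.pow h1 two_ne_zero) _
  -- the condition at `p`
  have key : (p : ℤ) ∣ M * M ^ 2 - n ^ 2 := by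
    refine ⟨- (M ^ 2 * r * e ^ 2 - M ^ 2 * p * e ^ 2 - M * p ^ 2 * r * e ^ 4), ?_⟩
    rw [← hE, hB, hC]
    ring
  have Fp1 : legendreSym p (s * d) = 1 := by
    apply leg_sq (b := u * M) (c := n)
    · intro h1
      rcases hpP.dvd_or_dvd h1 with h2 | h2
      · exact hpu h2
      · exact hpM h2
    · exact hpn
    · have : s * d * (u * M) ^ 2 = M * M ^ 2 := by
        calc s * d * (u * M) ^ 2 = (s * d * u ^ 2) * M ^ 2 := by ring
          _ = M * M ^ 2 := by rw [← hM]
      rw [this]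
      exact key
  have Fp2 : legendreSym p (s' * d') = 1 := by
    apply leg_sq (b := v * M) (c := n)
    · intro h1
      rcases hpP.dvd_or_dvd h1 with h2 | h2
      · exact hpv h2
      · exact hpM h2
    · exact hpn
    · have : s' * d' * (v * M) ^ 2 - n ^ 2 = (M * M ^ 2 - n ^ 2) - p * (p * e ^ 2 * M ^ 2) := by
        calc s' * d' * (v * M) ^ 2 - n ^ 2 = (s' * d' * v ^ 2) * M ^ 2 - n ^ 2 := by ring
          _ = B * M ^ 2 - n ^ 2 := by rw [← hB']
          _ = _ := by rw [hB]; ring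
      rw [this]
      exact dvd_sub key (Dvd.intro _ rfl)
  -- the condition at `q`
  have Fq : legendreSym q (s * d) = 1 := by
    by_cases hqB : (q : ℤ) ∣ B
    · have hqM : ¬ (q : ℤ) ∣ M := by
        intro h1
        have h2 : (q : ℤ) ∣ p ^ 2 * e ^ 2 := by
          have : (p : ℤ) ^ 2 * e ^ 2 = M - B := by rw [hB]; ring
          rw [this]
          exact dvd_sub h1 hqB
        rcases hqP.dvd_or_dvd h2 with h3 | h3
        · exact dv h.hq h.hp h.ne.symm (hqP.dvd_of_dvd_pow h3)
        · exact hnd q hqP h1 (hqP.dvd_of_dvd_pow h3)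
      apply leg_sq (b := u) (c := p * e)
      · intro h1
        apply hqM
        rw [hM]
        exact Dvd.dvd.mul_left (Dvd.dvd.pow h1 two_ne_zero) _
      · intro h1
        apply hqM
        have : M = B + p * e * (p * e) := by rw [hB]; ring
        rw [this]
        exact dvd_add hqB (Dvd.dvd.mul_right h1 _)
      · rw [← hM]
        have : M - (p * e) ^ 2 = B := by rw [hB]; ring
        rw [this]
        exact hqB
    · have hqC : (q : ℤ) ∣ C - B := ⟨2 * p * e ^ 2, by
        rw [hC, hB]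
        have : (r : ℤ) = 2 * q - p := by linarith
        rw [this]
        ring⟩
      apply leg_sq (b := B) (c := k) hqB
      · intro h1
        have h2 : (q : ℤ) ∣ s * d * (B * C) := by rw [hk]; exact Dvd.dvd.pow h1 two_ne_zero
        rcases hqP.dvd_or_dvd h2 with h3 | h3
        · have h4 : (q : ℤ) ∣ d := by
            rcases hs with rfl | rfl
            · simpa using h3
            · simpa using h3
          have h5 : q ∣ r := (by exact_mod_cast h4 : q ∣ d).trans hd1
          exact h.qr ((Nat.prime_dvd_prime_iff_eq h.hq h.hr).1 h5)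
        · rcases hqP.dvd_or_dvd h3 with h4 | h4
          · exact hqB h4
          · apply hqB
            have : B = C - (C - B) := by ring
            rw [this]
            exact dvd_sub h4 hqC
      · have : s * d * B ^ 2 - k ^ 2 = (C - B) * (- (s * d * B)) := by
          rw [← hk]; ring
        rw [this]
        exact Dvd.dvd.mul_right hqC _
  have e1 := sym1 h
  have e2 := sym2 h
  have e3 := sym3 h
  have e4 := sym4 h
  have n1 := leg_neg (p := p) h.p8
  have hd1' : d = 1 ∨ d = r := (Nat.dvd_prime h.hr).1 hd1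
  -- the first sign and the first class
  have hfirst : s = 1 ∧ d = 1 := by
    rcases hs with rfl | rfl
    · refine ⟨rfl, ?_⟩
      rcases hd1' with h1 | h1
      · exact h1
      · exfalso
        rw [h1, one_mul] at Fp1 Fq
        rw [Fp1] at e1
        rw [e1] at e3
        rw [e3, Fq] at e2
        norm_num at e2
    · exfalso
      rcases hd1' with h1 | h1
      · rw [h1, Nat.cast_one, mul_one, n1] at Fp1
        norm_num at Fp1
      · rw [h1, legendreSym.mul, n1] at Fp1
        rw [h1, legendreSym.mul, leg_neg h.q8] at Fq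
        linarith
  obtain ⟨hs0, hd0⟩ := hfirst
  have hMpos : 0 < M := hs1.2 hs0
  have hMu : M = u ^ 2 := by
    rw [hM, hs0, hd0]; push_cast; ring
  have hBpos : 0 < B := by
    by_contra hcon
    have h1 : B < 0 := lt_of_le_of_ne (not_lt.1 hcon) hB0
    have h2 : B * C < 0 := mul_neg_of_neg_of_pos h1 hCpos
    have h3 : M * (B * C) < 0 := mul_neg_of_pos_of_neg hMpos h2
    linarith
  have hs0' : s' = 1 := hs1'.1 hBpos
  rw [hs0', one_mul] at Fp2
  rw [hs0', one_mul] at hk'
  -- the condition at `r`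
  have hrd : ¬ (r : ℤ) ∣ d' := by
    intro h1
    have h2 : r ∣ 2 * q := (by exact_mod_cast h1 : r ∣ d').trans hd2
    rcases h.hr.dvd_mul.1 h2 with h3 | h3
    · have := (Nat.prime_dvd_prime_iff_eq h.hr Nat.prime_two).1 h3
      have := h.r8
      omega
    · exact h.qr ((Nat.prime_dvd_prime_iff_eq h.hr h.hq).1 h3).symm
  have hrC : (r : ℤ) ∣ C - M := ⟨p * e ^ 2, by rw [hC]; ring⟩
  have hrM : ¬ (r : ℤ) ∣ M := by
    intro h1
    have h2 : (r : ℤ) ∣ u := hrP.dvd_of_dvd_pow (by rw [← hMu]; exact h1)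
    have hre := hnd r hrP h1
    have hrB : ¬ (r : ℤ) ∣ B := by
      intro h3
      have h4 : (r : ℤ) ∣ p ^ 2 * e ^ 2 := by
        have : (p : ℤ) ^ 2 * e ^ 2 = M - B := by rw [hB]; ring
        rw [this]
        exact dvd_sub h1 h3
      rcases hrP.dvd_or_dvd h4 with h5 | h5
      · exact dv h.hr h.hp h.pr.symm (hrP.dvd_of_dvd_pow h5)
      · exact hre (hrP.dvd_of_dvd_pow h5)
    have h3 : (r : ℤ) ∣ C := by
      have : C = (C - M) + M := by ring
      rw [this]
      exact dvd_add hrC h1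
    rw [hs0, hd0] at hk
    have h4 : B * C = k ^ 2 := by rw [← hk]; push_cast; ring
    have h5 : (r : ℤ) ∣ k := hrP.dvd_of_dvd_pow (by rw [← h4]; exact Dvd.dvd.mul_left h3 _)
    obtain ⟨k1, hk1⟩ := h5
    obtain ⟨u1, hu1⟩ := h2
    obtain ⟨c1, hc1⟩ := h3
    have h6 : B * c1 = r * k1 ^ 2 := by
      apply mul_left_cancel₀ (ne_of_gt hr0)
      rw [hk1, hc1] at h4
      linear_combination h4
    have h7 : (r : ℤ) ∣ B * c1 := ⟨_, h6⟩
    have h8 : (r : ℤ) ∣ c1 := (hrP.dvd_or_dvd h7).resolve_left hrB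
    obtain ⟨c2, hc2⟩ := h8
    have h9 : (r : ℤ) * (p * e ^ 2) = r * (r * (c2 - u1 ^ 2)) := by
      have : (r : ℤ) * (p * e ^ 2) = C - M := by rw [hC]; ring
      rw [this, hc1, hc2, hMu, hu1]
      ring
    have h10 := mul_left_cancel₀ (ne_of_gt hr0) h9
    have h11 : (r : ℤ) ∣ p * e ^ 2 := ⟨_, h10⟩
    rcases hrP.dvd_or_dvd h11 with h5 | h5
    · exact dv h.hr h.hp h.pr.symm h5
    · exact hre (hrP.dvd_of_dvd_pow h5)
  have Fr : legendreSym r d' = 1 := by
    apply leg_sq (b := M) (c := k') hrM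
    · intro h1
      have h2 : (r : ℤ) ∣ d' * (M * C) := by rw [hk']; exact Dvd.dvd.pow h1 two_ne_zero
      rcases hrP.dvd_or_dvd h2 with h3 | h3
      · exact hrd h3
      · rcases hrP.dvd_or_dvd h3 with h4 | h4
        · exact hrM h4
        · apply hrM
          have : M = C - (C - M) := by ring
          rw [this]
          exact dvd_sub h4 hrC
    · have : (d' : ℤ) * M ^ 2 - k' ^ 2 = (C - M) * (- (d' * M)) := by
        rw [← hk']; ring
      rw [this]
      exact Dvd.dvd.mul_right hrC _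
  have hd0' : d' = 1 := by
    have n2 := leg_two (p := p) h.p8
    have n3 := leg_two (p := r) h.r8
    have hcase : d' = 1 ∨ d' = 2 ∨ d' = q ∨ d' = 2 * q := by
      obtain ⟨c, hc'⟩ := hd2
      by_cases hq' : q ∣ d'
      · obtain ⟨c', hc''⟩ := hq'
        have : 2 = c' * c := by
          apply Nat.eq_of_mul_eq_mul_left h.hq.pos
          rw [mul_comm q 2, hc', hc'']; ring
        have h1 : c' ∣ 2 := ⟨c, this⟩
        rcases (Nat.dvd_prime Nat.prime_two).1 h1 with h2 | h2
        · right; right; left; rw [hc'', h2, mul_one]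
        · right; right; right; rw [hc'', h2, mul_comm]
      · have h1 : Nat.Coprime d' q := ((Nat.Prime.coprime_iff_not_dvd h.hq).2 hq').symm
        have h2 : d' ∣ 2 := h1.dvd_of_dvd_mul_right ⟨c, hc'⟩
        rcases (Nat.dvd_prime Nat.prime_two).1 h2 with h3 | h3
        · left; exact h3
        · right; left; exact h3
    rcases hcase with h1 | h1 | h1 | h1
    · exact h1
    · exfalso
      rw [h1] at Fp2
      push_cast at Fp2
      rw [n2] at Fp2
      norm_num at Fp2
    · exfalso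
      rw [h1] at Fp2 Fr
      rw [Fp2] at e3
      rw [e3] at e2
      rw [e2, Fr] at e4
      norm_num at e4
    · exfalso
      rw [h1] at Fp2 Fr
      push_cast at Fp2 Fr
      rw [legendreSym.mul, n2] at Fp2
      rw [legendreSym.mul, n3] at Fr
      linarith
  refine ⟨u, v, hu, hv, hMu, ?_⟩
  rw [hB', hs0', hd0']
  push_cast
  ring

end Pool.Agent.X257.LG
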