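import Mathlib
import Pool.Agent.X58.IV.Prm
import Pool.Agent.H393R2.DC.Primes
import Pool.Agent.X257.LG.Core

/-!
# Three primes `3` mod `8` in progression
-/

set_option autoImplicit false

namespace Pool.Agent.X257.LG

open Finset Filter Topology ArithmeticFunction

open Pool.Agent.Cov.PNT (pnt_residueClass)

/-- the sum over the class -/
noncomputable def SL (N : ℕ) : ℝ :=
  ∑ k ∈ Finset.Icc 1 N, vonMangoldt.residueClass (3 : ZMod 8) k

lemma SL_tendsto : Tendsto (fun N : ℕ => SL N / N) atTop (𝓝 ((4 : ℝ)⁻¹)) := by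
  have h1 := (pnt_residueClass (q := 8) (a := 3) (by decide)).comp
    (tendsto_natCast_atTop_atTop (R := ℝ))
  have h2 : Nat.totient 8 = 4 := by decide
  rw [h2] at h1
  refine h1.congr (fun N => ?_)
  simp only [Function.comp, Nat.floor_natCast]
  rfl

/-- the primes of the class in the interval -/
noncomputable def UU (X : ℕ) : Finset ℕ :=
  (Ioc X (X + X)).filter (fun q : ℕ => q.Prime ∧ (q : ZMod 8) = 3)

lemma SL_le (X : ℕ) : SL (X + X) - SL X ≤
    (Chebyshev.psi (X + X : ℕ) - Chebyshev.theta (X + X : ℕ)) +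
      ((UU X).card : ℝ) * Real.log (X + X : ℕ) := by
  classical
  have h0 : SL (X + X) - SL X = ∑ k ∈ Ioc X (X + X), vonMangoldt.residueClass (3 : ZMod 8) k := by
    unfold SL
    rw [sub_eq_iff_eq_add, add_comm, ← Finset.sum_union]
    · apply Finset.sum_congr _ (fun _ _ => rfl)
      ext k
      simp only [mem_Icc, mem_union, mem_Ioc]
      omega
    · rw [Finset.disjoint_left]
      intro k hk hk'
      rw [mem_Ioc] at hk
      rw [mem_Icc] at hk'
      omega
  rw [h0, Chebyshev.psi_sub_theta_eq_sum_not_prime, Nat.floor_natCast]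
  rw [← Finset.sum_filter_add_sum_filter_not (Ioc X (X + X)) (fun r => r.Prime)
    (fun k => vonMangoldt.residueClass (3 : ZMod 8) k), add_comm]
  apply add_le_add
  · calc ∑ k ∈ (Ioc X (X + X)).filter (fun r => ¬ r.Prime), vonMangoldt.residueClass (3 : ZMod 8) k
        ≤ ∑ k ∈ (Ioc X (X + X)).filter (fun r => ¬ r.Prime), vonMangoldt k :=
          Finset.sum_le_sum (fun r _ => vonMangoldt.residueClass_le _ _)
      _ ≤ _ := by
          apply Finset.sum_le_sum_of_subset_of_nonneg
          · apply Finset.filter_subset_filter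
            intro k hk
            rw [mem_Ioc] at hk ⊢
            omega
          · intro k _ _
            exact vonMangoldt_nonneg
  · have h1 : ∑ r ∈ (Ioc X (X + X)).filter (fun r => r.Prime),
        vonMangoldt.residueClass (3 : ZMod 8) r =
        ∑ r ∈ ((Ioc X (X + X)).filter (fun r => r.Prime)).filter (fun r : ℕ => (r : ZMod 8) = 3),
          Real.log r := by
      rw [Finset.sum_filter (p := fun r : ℕ => (r : ZMod 8) = 3)]
      apply Finset.sum_congr rfl
      intro r hr
      rw [Finset.mem_filter] at hr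
      split_ifs with h
      · rw [vonMangoldt.residueClass, Set.indicator_of_mem]
        · exact vonMangoldt_apply_prime hr.2
        · exact h
      · rw [vonMangoldt.residueClass, Set.indicator_of_notMem]
        exact h
    rw [h1, Finset.filter_filter]
    calc _ ≤ ∑ r ∈ UU X, Real.log (X + X : ℕ) := by
          apply Finset.sum_le_sum
          intro r hr
          rw [Finset.mem_filter, mem_Ioc] at hr
          apply Real.log_le_log
          · exact_mod_cast hr.2.1.pos
          · exact_mod_cast hr.1.2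
      _ = _ := by rw [Finset.sum_const, nsmul_eq_mul]

lemma dens : ∃ X0 : ℕ, ∀ X : ℕ, X0 ≤ X → (1 / 16 : ℝ) * X / Real.log X ≤ ((UU X).card : ℝ) := by
  have h1 := SL_tendsto
  have hd : Tendsto (fun X : ℕ => X + X) atTop atTop :=
    tendsto_atTop_mono (fun X => Nat.le_add_left X X) tendsto_id
  have h2 := h1.comp hd
  have h3 := (Pool.Agent.Cov.psi_theta_tendsto.comp (tendsto_natCast_atTop_atTop (R := ℝ))).comp hd
  have e1 := h1.eventually_lt_const (show (4 : ℝ)⁻¹ < 9 / 32 by norm_num)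
  have e2 := h2.eventually_const_lt (show (15 / 64 : ℝ) < (4 : ℝ)⁻¹ by norm_num)
  have e3 := h3.eventually_lt_const (show (0 : ℝ) < 1 / 32 by norm_num)
  obtain ⟨X0, hX0⟩ := eventually_atTop.1 (e1.and (e2.and e3))
  refine ⟨max X0 3, fun X hX => ?_⟩
  obtain ⟨f1, f2, f3⟩ := hX0 X ((le_max_left _ _).trans hX)
  have hX3 : 3 ≤ X := (le_max_right _ _).trans hX
  have hX3' : (3 : ℝ) ≤ X := by exact_mod_cast hX3
  have hXp : (0 : ℝ) < X := by linarith
  have hXXp : (0 : ℝ) < ((X + X : ℕ) : ℝ) := by push_cast; linarith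
  simp only [Function.comp] at f2 f3
  rw [div_lt_iff₀ hXp] at f1
  rw [lt_div_iff₀ hXXp] at f2
  rw [div_lt_iff₀ hXXp] at f3
  have h4 := SL_le X
  have hlog : 0 < Real.log X := Real.log_pos (by linarith)
  have hlog2 : Real.log (X + X : ℕ) ≤ 2 * Real.log X := by
    rw [show (2 : ℝ) * Real.log X = Real.log ((X : ℝ) ^ 2) by rw [Real.log_pow]; push_cast; ring]
    apply Real.log_le_log hXXp
    push_cast
    nlinarith
  have h5 : ((UU X).card : ℝ) * Real.log (X + X : ℕ) ≤ (UU X).card * (2 * Real.log X) :=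
    mul_le_mul_of_nonneg_left hlog2 (Nat.cast_nonneg _)
  rw [div_le_iff₀ hlog]
  push_cast at *
  linarith

/-- **Three primes in progression.** -/
theorem exists_trip (Y : ℕ) : ∃ p q r : ℕ, Y < p ∧ p < q ∧ Trip p q r := by
  obtain ⟨X0, hX0⟩ := dens
  obtain ⟨B, X1, hX1⟩ := Pool.Agent.X58.IV.primes_ap 3 (1 / 16) (by norm_num)
  obtain ⟨X, hX⟩ : ∃ X, X = max Y (max X0 X1) := ⟨_, rfl⟩
  have hY : Y ≤ X := by omega
  have h1 := hX1 X X (by omega) le_rfl (UU X) (by
    intro k hk
    rw [UU, mem_filter] at hk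
    rw [mem_filter]
    exact ⟨hk.1, hk.2.1⟩) (hX0 X (by omega))
  obtain ⟨a, d, hd, -, ha⟩ := h1
  have g0 := ha 0 (by norm_num)
  have g1 := ha 1 (by norm_num)
  have g2 := ha 2 (by norm_num)
  have m8 : ∀ k ∈ UU X, k.Prime ∧ k % 8 = 3 ∧ X < k := by
    intro k hk
    rw [UU, mem_filter, mem_Ioc] at hk
    refine ⟨hk.2.1, ?_, hk.1.1⟩
    have := hk.2.2
    have h3 : ((k : ℕ) : ZMod 8) = ((3 : ℕ) : ZMod 8) := by exact_mod_cast this
    rw [ZMod.natCast_eq_natCast_iff] at h3
    exact h3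
  obtain ⟨a1, a2, a3⟩ := m8 _ g0
  obtain ⟨b1, b2, b3⟩ := m8 _ g1
  obtain ⟨c1, c2, c3⟩ := m8 _ g2
  refine ⟨a + 0 * d, a + 1 * d, a + 2 * d, by omega, by omega, ⟨a1, b1, c1, a2, b2, c2, by ring, by omega⟩⟩

end Pool.Agent.X257.LG
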