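import Mathlib
import Pool.Agent.TH841.SH.Alg2
import Pool.Agent.H437R2.Man.MWWeak
import Pool.Agent.X257.LG.Core

/-!
# The rank of `y² = x (x + 1) (x + 2 q / p)`
-/

set_option autoImplicit false

namespace Pool.Agent.X257.LG

open WeierstrassCurve

open Pool.Agent.TH841.SH (IsR)

open Pool.Agent.H437R2.Man.MW (crv pt_fg)

/-- no further reduction at `p` -/
def Good (p : ℕ) (z : ℚ) : Prop :=
  ∃ m n : ℤ, n ≠ 0 ∧ (p : ℚ) ^ 2 * (z + 1) = m / n ∧ ¬ (p : ℤ) ∣ m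

lemma od1 {p : ℕ} (hp : p.Prime) {K n : ℤ} (h : (p : ℤ) * K = n ^ 2) : (p : ℤ) ∣ K := by
  have hpP : Prime (p : ℤ) := Nat.prime_iff_prime_int.1 hp
  obtain ⟨m, rfl⟩ := hpP.dvd_of_dvd_pow (⟨K, h.symm⟩ : (p : ℤ) ∣ n ^ 2)
  refine ⟨m ^ 2, mul_left_cancel₀ hpP.ne_zero ?_⟩
  linear_combination h

lemma od3 {p : ℕ} (hp : p.Prime) {K n : ℤ} (h : (p : ℤ) ^ 3 * K = n ^ 2) : (p : ℤ) ∣ K := by
  have hpP : Prime (p : ℤ) := Nat.prime_iff_prime_int.1 hp
  obtain ⟨m, rfl⟩ := hpP.dvd_of_dvd_pow (⟨(p : ℤ) ^ 2 * K, by rw [← h]; ring⟩ : (p : ℤ) ∣ n ^ 2)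
  refine od1 (n := m) hp (mul_left_cancel₀ (pow_ne_zero 2 hpP.ne_zero) ?_)
  linear_combination h

lemma od5 {p : ℕ} (hp : p.Prime) {K n : ℤ} (h : (p : ℤ) ^ 5 * K = n ^ 2) : (p : ℤ) ∣ K := by
  have hpP : Prime (p : ℤ) := Nat.prime_iff_prime_int.1 hp
  obtain ⟨m, rfl⟩ := hpP.dvd_of_dvd_pow (⟨(p : ℤ) ^ 4 * K, by rw [← h]; ring⟩ : (p : ℤ) ∣ n ^ 2)
  refine od3 (n := m) hp (mul_left_cancel₀ (pow_ne_zero 2 hpP.ne_zero) ?_)
  linear_combination h

section

variable {p q r : ℕ} {t x y : ℚ}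

lemma t_one (h : Trip p q r) (ht : t = 2 * q / p) : (p : ℚ) * (t - 1) = r := by
  have hp0 : (p : ℚ) ≠ 0 := by exact_mod_cast h.hp.ne_zero
  have hs : (p : ℚ) + r = 2 * q := by exact_mod_cast h.sum
  rw [ht]
  field_simp
  linarith

lemma t_mul (h : Trip p q r) (ht : t = 2 * q / p) : (p : ℚ) * t = 2 * q := by
  have hp0 : (p : ℚ) ≠ 0 := by exact_mod_cast h.hp.ne_zero
  rw [ht]
  field_simp

lemma int_form (h : Trip p q r) (ht : t = 2 * q / p) (hy : y ≠ 0)
    (he : y ^ 2 = (x + 1) * x * (x + t)) :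
    ∃ M e n : ℤ, IsCoprime M e ∧ e ≠ 0 ∧ n ≠ 0 ∧ (p : ℚ) ^ 2 * (x + 1) = M / e ^ 2 ∧
      M * ((M - p ^ 2 * e ^ 2) * (M + p * r * e ^ 2)) = n ^ 2 := by
  have hp0 : (p : ℚ) ≠ 0 := by exact_mod_cast h.hp.ne_zero
  have ht1 := t_one h ht
  obtain ⟨X, hX⟩ : ∃ X : ℚ, X = (p : ℚ) ^ 2 * (x + 1) := ⟨_, rfl⟩
  have hXY : (p ^ 3 * y) ^ 2 = X * ((X - p ^ 2) * (X + p * r)) := by
    have e1 : X - p ^ 2 = p ^ 2 * x := by rw [hX]; ring
    have e2 : X + p * r = p ^ 2 * (x + t) := by rw [hX, ← ht1]; ring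
    rw [e1, e2, hX]
    linear_combination (p : ℚ) ^ 6 * he
  have hN0 : (X.den : ℤ) ≠ 0 := by exact_mod_cast X.den_nz
  have hNQ : (X.den : ℚ) ≠ 0 := by exact_mod_cast X.den_nz
  have hMN : X = X.num / X.den := (Rat.num_div_den X).symm
  have hcop : IsCoprime X.num (X.den : ℤ) := Rat.isCoprime_num_den X
  generalize hM : X.num = M at *
  generalize hN : X.den = N at *
  have h1 : ((p ^ 3 * y) * N ^ 2) ^ 2 =
      (((N : ℤ) * (M * ((M - p ^ 2 * N) * (M + p * r * N))) : ℤ) : ℚ) := by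
    rw [mul_pow, hXY, hMN]
    push_cast
    field_simp
  have h2 : IsSquare ((((N : ℤ) * (M * ((M - p ^ 2 * N) * (M + p * r * N))) : ℤ) : ℚ)) :=
    ⟨(p ^ 3 * y) * N ^ 2, by rw [← h1]; ring⟩
  rw [Rat.isSquare_intCast_iff] at h2
  obtain ⟨k, hk⟩ := h2
  have hk0 : k ≠ 0 := by
    rintro rfl
    rw [hk] at h1
    have : (p ^ 3 * y) * (N : ℚ) ^ 2 ≠ 0 := by positivity
    apply this
    have h3 : ((p ^ 3 * y) * (N : ℚ) ^ 2) ^ 2 = 0 := by rw [h1]; simp
    exact pow_eq_zero_iff two_ne_zero |>.1 h3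
  have c1 : IsCoprime (N : ℤ) M := hcop.symm
  have c2 : IsCoprime (N : ℤ) (M - p ^ 2 * N) := by
    have := c1.add_mul_left_right (-(p : ℤ) ^ 2)
    have e : M - p ^ 2 * N = M + N * (-(p : ℤ) ^ 2) := by ring
    rw [e]
    exact this
  have c3 : IsCoprime (N : ℤ) (M + p * r * N) := by
    have := c1.add_mul_left_right ((p : ℤ) * r)
    have e : M + p * r * N = M + N * ((p : ℤ) * r) := by ring
    rw [e]
    exact this
  obtain ⟨e, he'⟩ := Int.sq_of_isCoprime (c1.mul_right (c2.mul_right c3)) (by rw [hk]; ring :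
    (N : ℤ) * (M * ((M - p ^ 2 * N) * (M + p * r * N))) = k ^ 2)
  have heN : (N : ℤ) = e ^ 2 := by
    rcases he' with h3 | h3
    · exact h3
    · exfalso
      have h4 : (0 : ℤ) < N := by positivity
      have h5 : 0 ≤ e ^ 2 := by positivity
      linarith
  have he0 : e ≠ 0 := by
    rintro rfl
    apply hN0
    rw [heN]
    ring
  rw [heN] at hk c1
  have h3 : e ^ 2 ∣ k ^ 2 := ⟨_, by rw [sq k, ← hk]⟩
  obtain ⟨n, hn⟩ := (Int.pow_dvd_pow_iff two_ne_zero).1 h3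
  refine ⟨M, e, n, (IsCoprime.pow_left_iff (by norm_num)).1 c1 |>.symm, he0, ?_, ?_, ?_⟩
  · rintro rfl
    apply hk0
    rw [hn, mul_zero]
  · rw [← hX, hMN]
    have : (N : ℚ) = e ^ 2 := by exact_mod_cast heN
    rw [this]
  · apply mul_left_cancel₀ (pow_ne_zero 2 he0)
    rw [hk, hn]
    ring

lemma roots (h : Trip p q r) (ht : t = 2 * q / p) (hy : y ≠ 0)
    (he : y ^ 2 = (x + 1) * x * (x + t)) (hg : Good p x) :
    ∃ a b c : ℚ, x + 1 = a ^ 2 ∧ x = b ^ 2 ∧ x + t = c ^ 2 ∧ y = a * b * c := by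
  obtain ⟨M, e, n, hc, he0, hn0, hM, hE⟩ := int_form h ht hy he
  have hp0 : (p : ℚ) ≠ 0 := by exact_mod_cast h.hp.ne_zero
  have heQ : (e : ℚ) ≠ 0 := by exact_mod_cast he0
  have hpP : Prime (p : ℤ) := Nat.prime_iff_prime_int.1 h.hp
  have hpM : ¬ (p : ℤ) ∣ M := by
    intro h1
    obtain ⟨m, k, hk, hm, hpm⟩ := hg
    have hkQ : (k : ℚ) ≠ 0 := by exact_mod_cast hk
    rw [hM, div_eq_div_iff (pow_ne_zero 2 heQ) hkQ] at hm
    have h2 : M * k = m * e ^ 2 := by exact_mod_cast hm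
    have h3 : (p : ℤ) ∣ m * e ^ 2 := by rw [← h2]; exact Dvd.dvd.mul_right h1 _
    rcases hpP.dvd_or_dvd h3 with h4 | h4
    · exact hpm h4
    · exact hpP.not_isUnit (hc.isUnit_of_dvd' h1 (hpP.dvd_of_dvd_pow h4))
  obtain ⟨u, v, hu, hv, hMu, hMv⟩ := core h hc he0 hn0 hpM hE
  have huQ : (u : ℚ) ≠ 0 := by exact_mod_cast hu
  have hvQ : (v : ℚ) ≠ 0 := by exact_mod_cast hv
  have hMuQ : (M : ℚ) = u ^ 2 := by exact_mod_cast hMu
  have hMvQ : (M : ℚ) - p ^ 2 * e ^ 2 = v ^ 2 := by exact_mod_cast hMv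
  have hx1 : x + 1 = (u / (p * e)) ^ 2 := by
    have : (p : ℚ) ^ 2 * (x + 1) * e ^ 2 = u ^ 2 := by
      rw [hM, hMuQ]
      field_simp
    field_simp
    linarith
  have hx : x = (v / (p * e)) ^ 2 := by
    have h5 : (p : ℚ) ^ 2 * (x + 1) * e ^ 2 = M := by
      rw [hM]
      field_simp
    have : (p : ℚ) ^ 2 * x * e ^ 2 = v ^ 2 := by
      rw [← hMvQ, ← h5]
      ring
    field_simp
    linarith
  have ha0 : (u : ℚ) / (p * e) ≠ 0 := by positivity
  have hb0 : (v : ℚ) / (p * e) ≠ 0 := by positivity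
  refine ⟨u / (p * e), v / (p * e), y / (u / (p * e) * (v / (p * e))), hx1, hx, ?_, ?_⟩
  · rw [div_pow, he, mul_pow, ← hx1, ← hx]
    have g1 : x + 1 ≠ 0 := by rw [hx1]; positivity
    have g2 : x ≠ 0 := by rw [hx]; positivity
    field_simp
  · field_simp

lemma red (h : Trip p q r) (ht : t = 2 * q / p) (hy : y ≠ 0)
    (he : y ^ 2 = (x + 1) * x * (x + t)) :
    Good p x ∨ Good p (-1 + (-1 - 0) * (-1 - -t) / (x - -1)) ∨
      Good p (0 + (0 - -1) * (0 - -t) / (x - 0)) ∨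
      Good p (-t + (-t - -1) * (-t - 0) / (x - -t)) := by
  obtain ⟨M, e, n, hc, he0, hn0, hM, hE⟩ := int_form h ht hy he
  have hp0 : (p : ℚ) ≠ 0 := by exact_mod_cast h.hp.ne_zero
  have heQ : (e : ℚ) ≠ 0 := by exact_mod_cast he0
  have hpP : Prime (p : ℤ) := Nat.prime_iff_prime_int.1 h.hp
  have ht1 := t_one h ht
  have ht2 := t_mul h ht
  have hx1 : x + 1 ≠ 0 := by
    intro h0
    rw [h0] at he
    apply hy
    simpa using he
  have hx0 : x ≠ 0 := by
    intro h0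
    rw [h0] at he
    apply hy
    simpa using he
  have hxt : x + t ≠ 0 := by
    intro h0
    rw [h0] at he
    apply hy
    simpa using he
  have hM' : (p : ℚ) ^ 2 * (x + 1) * e ^ 2 = M := by
    rw [hM]
    field_simp
  by_cases h1 : (p : ℤ) ∣ M
  swap
  · left
    exact ⟨M, e ^ 2, pow_ne_zero 2 he0, by rw [hM]; push_cast; rfl, h1⟩
  have hpe : ¬ (p : ℤ) ∣ e := fun h2 => hpP.not_isUnit (hc.isUnit_of_dvd' h1 h2)
  have hpre : ¬ (p : ℤ) ∣ r * e ^ 2 := by
    intro h2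
    rcases hpP.dvd_or_dvd h2 with h3 | h3
    · exact dv h.hp h.hr h.pr h3
    · exact hpe (hpP.dvd_of_dvd_pow h3)
  have hp2 : ¬ (p : ℤ) ∣ 2 := by
    intro h2
    have h3 : p ∣ 2 := by exact_mod_cast h2
    have := (Nat.prime_dvd_prime_iff_eq h.hp Nat.prime_two).1 h3
    have := h.p8
    omega
  have hpqe : ¬ (p : ℤ) ∣ 2 * q * e ^ 2 := by
    intro h2
    rcases hpP.dvd_or_dvd h2 with h3 | h3
    · rcases hpP.dvd_or_dvd h3 with h4 | h4
      · exact hp2 h4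
      · exact dv h.hp h.hq h.ne h4
    · exact hpe (hpP.dvd_of_dvd_pow h3)
  right
  obtain ⟨m', rfl⟩ := h1
  by_cases h2 : (p : ℤ) ∣ m'
  · obtain ⟨m, rfl⟩ := h2
    have h3 : (p : ℤ) ^ 5 * (m * ((m - e ^ 2) * (p * m + r * e ^ 2))) = n ^ 2 := by
      rw [← hE]; ring
    have h4 := od5 h.hp h3
    rcases hpP.dvd_or_dvd h4 with h5 | h5
    · left
      obtain ⟨w, rfl⟩ := h5
      push_cast at hM'
      have hw : (w : ℚ) ≠ 0 := by
        intro h0
        rw [h0] at hM'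
        have : (p : ℚ) ^ 2 * (x + 1) * e ^ 2 ≠ 0 :=
          mul_ne_zero (mul_ne_zero (pow_ne_zero 2 hp0) hx1) (pow_ne_zero 2 heQ)
        apply this
        rw [hM']
        ring
      refine ⟨-(r * e ^ 2), w, by exact_mod_cast hw, ?_, fun h6 => hpre ((dvd_neg).1 h6)⟩
      have e1 : (x + 1) * e ^ 2 = p * w := by
        apply mul_left_cancel₀ (pow_ne_zero 2 hp0)
        linear_combination hM'
      rw [eq_div_iff hw]
      have e2 : x - -1 = x + 1 := by ring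
      rw [e2]
      push_cast
      field_simp
      have e3 : (w : ℚ) * p = (x + 1) * e ^ 2 := by rw [e1]; ring
      linear_combination (-(p : ℚ) * (t - 1)) * e3 - (x + 1) * e ^ 2 * ht1
    · rcases hpP.dvd_or_dvd h5 with h6 | h6
      · right; left
        obtain ⟨w, hw'⟩ := h6
        have hwQ : (m : ℚ) - e ^ 2 = p * w := by exact_mod_cast hw'
        push_cast at hM'
        have e1 : x * e ^ 2 = p * w := by
          apply mul_left_cancel₀ (pow_ne_zero 2 hp0)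
          linear_combination hM' + (p : ℚ) ^ 2 * hwQ
        have hw : (w : ℚ) ≠ 0 := by
          intro h0
          rw [h0, mul_zero] at e1
          exact (mul_ne_zero hx0 (pow_ne_zero 2 heQ)) e1
        refine ⟨2 * q * e ^ 2 + p ^ 2 * w, w, by exact_mod_cast hw, ?_, fun h6 => hpqe ?_⟩
        · rw [eq_div_iff hw]
          have e2 : x - 0 = x := by ring
          rw [e2]
          push_cast
          field_simp
          linear_combination (-(p : ℚ) * t) * e1 + x * e ^ 2 * ht2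
        · have : (2 : ℤ) * q * e ^ 2 = (2 * q * e ^ 2 + p ^ 2 * w) - p * (p * w) := by ring
          rw [this]
          exact dvd_sub h6 (Dvd.intro _ rfl)
      · exfalso
        apply hpre
        have : (r : ℤ) * e ^ 2 = (p * m + r * e ^ 2) - p * m := by ring
        rw [this]
        exact dvd_sub h6 (Dvd.intro _ rfl)
  · right; right
    have h3 : (p : ℤ) ^ 3 * (m' * ((m' - p * e ^ 2) * (m' + r * e ^ 2))) = n ^ 2 := by
      rw [← hE]; ring
    have h4 := od3 h.hp h3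
    have h5 : (p : ℤ) ∣ m' + r * e ^ 2 := by
      rcases hpP.dvd_or_dvd h4 with h5 | h5
      · exact absurd h5 h2
      · rcases hpP.dvd_or_dvd h5 with h6 | h6
        · exfalso
          apply h2
          have : m' = (m' - p * e ^ 2) + p * e ^ 2 := by ring
          rw [this]
          exact dvd_add h6 (Dvd.intro _ rfl)
        · exact h6
    obtain ⟨w, hw'⟩ := h5
    have hwQ : (m' : ℚ) + r * e ^ 2 = p * w := by exact_mod_cast hw'
    push_cast at hM'
    have e1 : (x + t) * e ^ 2 = w := by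
      apply mul_left_cancel₀ (pow_ne_zero 2 hp0)
      linear_combination hM' + (p : ℚ) * hwQ + p * e ^ 2 * ht1
    have hw : (w : ℚ) ≠ 0 := by
      rw [← e1]
      exact mul_ne_zero hxt (pow_ne_zero 2 heQ)
    refine ⟨2 * q * (r * e ^ 2) - p * (r * w), w, by exact_mod_cast hw, ?_, fun h6 => ?_⟩
    · rw [eq_div_iff hw]
      have e2 : x - -t = x + t := by ring
      rw [e2]
      push_cast
      field_simp
      rw [← e1, ← ht1, ← ht2]
      ring
    · have h7 : (p : ℤ) ∣ 2 * q * (r * e ^ 2) := by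
        have : (2 : ℤ) * q * (r * e ^ 2) = (2 * q * (r * e ^ 2) - p * (r * w)) + p * (r * w) := by ring
        rw [this]
        exact dvd_add h6 (Dvd.intro _ rfl)
      rcases hpP.dvd_or_dvd h7 with h8 | h8
      · exact hpqe (Dvd.dvd.mul_right h8 _)
      · exact hpre h8

end

/-- the curve `y² = x (x + 1) (x + t)` -/
def E (t : ℚ) : WeierstrassCurve ℚ := ⟨0, 1 + t, 0, t, 0⟩

lemma isR (t : ℚ) : IsR (E t) (-1) 0 (-t) :=
  ⟨rfl, by show 1 + t = _; ring, rfl, by show t = _; ring, by show (0 : ℚ) = _; ring⟩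

lemma fg (t : ℚ) (h0 : t ≠ 0) (h1 : t ≠ 1) : AddGroup.FG (E t).toAffine.Point := by
  have hW : E t = crv (1 : ℚ) 0 t := by
    apply WeierstrassCurve.ext
    · rfl
    · show 1 + t = 1 + 0 + t
      ring
    · rfl
    · show t = 1 * 0 + 1 * t + 0 * t
      ring
    · show (0 : ℚ) = 1 * 0 * t
      ring
  rw [hW]
  exact pt_fg one_ne_zero (Ne.symm h1) (Ne.symm h0)

lemma two_div {p q r : ℕ} (h : Trip p q r) {t : ℚ} (ht : t = 2 * q / p)
    (P : (E t).toAffine.Point) : ∃ T Q : (E t).toAffine.Point, T + T = 0 ∧ P + T = Q + Q := by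
  have hp0 : (p : ℚ) ≠ 0 := by exact_mod_cast h.hp.ne_zero
  have hq0 : (q : ℚ) ≠ 0 := by exact_mod_cast h.hq.ne_zero
  have hr0 : (r : ℚ) ≠ 0 := by exact_mod_cast h.hr.ne_zero
  have ht1 := t_one h ht
  have ht2 := t_mul h ht
  have t0 : t ≠ 0 := by
    intro h0
    rw [h0, mul_zero] at ht2
    exact (mul_ne_zero two_ne_zero hq0) ht2.symm
  have t1 : t ≠ 1 := by
    intro h0
    rw [h0, sub_self, mul_zero] at ht1
    exact hr0 ht1.symm
  have hR := isR t
  have hab : (-1 : ℚ) ≠ 0 := by norm_num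
  have hac : (-1 : ℚ) ≠ -t := fun h0 => t1 (by linarith)
  have hbc : (0 : ℚ) ≠ -t := fun h0 => t0 (by linarith)
  have fin : ∀ (x y : ℚ) (hn : (E t).toAffine.Nonsingular x y), y ≠ 0 → Good p x →
      ∃ Q : (E t).toAffine.Point, (Affine.Point.some x y hn : (E t).toAffine.Point) = Q + Q := by
    intro x y hn hy hg
    have he := (hR.eqn x y).1 hn.1
    have he' : y ^ 2 = (x + 1) * x * (x + t) := by rw [he]; ring
    obtain ⟨a, b, c, h1, h2, h3, h4⟩ := roots h ht hy he' hg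
    exact hR.halve two_ne_zero hab hac hbc hn (by rw [← h1]; ring) (by rw [← h2]; ring)
      (by rw [← h3]; ring) h4
  rcases P with _ | ⟨x, y, hn⟩
  · exact ⟨0, 0, add_zero _, rfl⟩
  by_cases hy : y = 0
  · refine ⟨.some x y hn, 0, (hR.add_self two_ne_zero hn).2 hy, ?_⟩
    rw [(hR.add_self two_ne_zero hn).2 hy, add_zero]
  have he := (hR.eqn x y).1 hn.1
  have he' : y ^ 2 = (x + 1) * x * (x + t) := by rw [he]; ring
  rcases red h ht hy he' with hg | hg | hg | hg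
  · obtain ⟨Q, hQ⟩ := fin x y hn hy hg
    exact ⟨0, Q, add_zero _, by rw [add_zero]; exact hQ⟩
  · have na : (E t).toAffine.Nonsingular (-1) 0 := hR.nons two_ne_zero hab hac hbc (by ring)
    obtain ⟨X, Y, hn', hadd, g1, g2, g3, hX, hY⟩ := hR.trans hn hy na
    have hY0 : Y ≠ 0 := by
      rw [hY]
      exact div_ne_zero (mul_ne_zero (neg_ne_zero.2 hy) (mul_ne_zero (sub_ne_zero.2 hab)
        (sub_ne_zero.2 hac))) (pow_ne_zero 2 g1)
    obtain ⟨Q, hQ⟩ := fin X Y hn' hY0 (by rw [hX]; exact hg)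
    exact ⟨.some (-1) 0 na, Q, (hR.add_self two_ne_zero na).2 rfl, by rw [hadd]; exact hQ⟩
  · have na : (E t).toAffine.Nonsingular 0 0 := hR.nons two_ne_zero hab hac hbc (by ring)
    obtain ⟨X, Y, hn', hadd, g1, g2, g3, hX, hY⟩ := hR.swap.trans hn hy na
    have hY0 : Y ≠ 0 := by
      rw [hY]
      exact div_ne_zero (mul_ne_zero (neg_ne_zero.2 hy) (mul_ne_zero (sub_ne_zero.2 hab.symm)
        (sub_ne_zero.2 hbc))) (pow_ne_zero 2 g1)
    obtain ⟨Q, hQ⟩ := fin X Y hn' hY0 (by rw [hX]; exact hg)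
    exact ⟨.some 0 0 na, Q, (hR.add_self two_ne_zero na).2 rfl, by rw [hadd]; exact hQ⟩
  · have na : (E t).toAffine.Nonsingular (-t) 0 := hR.nons two_ne_zero hab hac hbc (by ring)
    obtain ⟨X, Y, hn', hadd, g1, g2, g3, hX, hY⟩ := hR.rot.rot.trans hn hy na
    have hY0 : Y ≠ 0 := by
      rw [hY]
      exact div_ne_zero (mul_ne_zero (neg_ne_zero.2 hy) (mul_ne_zero (sub_ne_zero.2 hac.symm)
        (sub_ne_zero.2 hbc.symm))) (pow_ne_zero 2 g1)
    obtain ⟨Q, hQ⟩ := fin X Y hn' hY0 (by rw [hX]; exact hg)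
    exact ⟨.some (-t) 0 na, Q, (hR.add_self two_ne_zero na).2 rfl, by rw [hadd]; exact hQ⟩

/-- a finitely generated group with `P + T = Q + Q` -/
theorem rank_zero {G : Type} [AddCommGroup G] (hG : AddGroup.FG G)
    (h : ∀ P : G, ∃ T Q : G, T + T = 0 ∧ P + T = Q + Q) : Module.finrank ℤ G = 0 := by
  have : Module.Finite ℤ G := Module.Finite.iff_addGroup_fg.mpr hG
  let M := G ⧸ Submodule.torsion ℤ G
  have hr : Module.finrank ℤ M = Module.finrank ℤ G :=
    finrank_quotient_eq_of_le_torsion le_rfl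
  have : Module.Finite ℤ M := inferInstance
  have : Module.Free ℤ M := inferInstance
  let b : Module.Basis (Fin (Module.finrank ℤ M)) ℤ M := Module.finBasis ℤ M
  rw [← hr]
  by_contra hcon
  have hpos : 0 < Module.finrank ℤ M := Nat.pos_of_ne_zero hcon
  obtain ⟨g, hg⟩ := (Submodule.torsion ℤ G).mkQ_surjective (b ⟨0, hpos⟩)
  obtain ⟨T, Q, hT, hQ⟩ := h g
  have hT' : (Submodule.torsion ℤ G).mkQ T = 0 := by
    rw [Submodule.mkQ_apply, Submodule.Quotient.mk_eq_zero, Submodule.mem_torsion_iff]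
    refine ⟨⟨2, mem_nonZeroDivisors_of_ne_zero two_ne_zero⟩, ?_⟩
    change (2 : ℤ) • T = 0
    rw [two_zsmul]
    exact hT
  have h1 : b ⟨0, hpos⟩ = (Submodule.torsion ℤ G).mkQ Q + (Submodule.torsion ℤ G).mkQ Q := by
    rw [← map_add, ← hQ, map_add, hT', add_zero, hg]
  have h2 := congrArg (fun v => b.repr v ⟨0, hpos⟩) h1
  simp only [Module.Basis.repr_self, map_add, Finsupp.single_eq_same, Finsupp.add_apply] at h2
  omega

/-- **The rank is zero.** -/
theorem rank {p q r : ℕ} (h : Trip p q r) :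
    Module.finrank ℤ (E (2 * q / p)).toAffine.Point = 0 := by
  have hp0 : (p : ℚ) ≠ 0 := by exact_mod_cast h.hp.ne_zero
  have hq0 : (q : ℚ) ≠ 0 := by exact_mod_cast h.hq.ne_zero
  have hr0 : (r : ℚ) ≠ 0 := by exact_mod_cast h.hr.ne_zero
  have ht1 := t_one h (t := 2 * q / p) rfl
  refine rank_zero (fg _ (by positivity) ?_) (two_div h rfl)
  intro h0
  rw [h0, sub_self, mul_zero] at ht1
  exact hr0 ht1.symm

end Pool.Agent.X257.LG
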